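import Pool.Agent.DPL.StmtsA

/-! Squad DPL, row WDG (helper25). -/

namespace Pool.Agent.DPL.H25

open Finset Pool.Agent.DPS

/-- Newton expansion on `0..r` -/
theorem newton (h : ℕ → ℝ) : ∃ a : ℕ → ℝ, ∀ r x : ℕ, x ≤ r →
    h x = ∑ j ∈ Finset.range (r + 1), a j * (x.choose j : ℝ) := by
  refine ⟨fun j => (fwdDiff 1)^[j] h 0, ?_⟩
  intro r x hx
  have h1 := shift_eq_sum_fwdDiff_iter 1 h x 0
  simp only [smul_eq_mul, mul_one, zero_add, nsmul_eq_mul] at h1
  rw [h1]
  have hsub : Finset.range (x + 1) ⊆ Finset.range (r + 1) :=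
    Finset.range_subset_range.2 (by omega)
  rw [← Finset.sum_subset hsub]
  · refine Finset.sum_congr rfl fun j _ => ?_
    ring
  · intro j _ hj
    have : x < j := by
      simp only [Finset.mem_range] at hj
      omega
    rw [Nat.choose_eq_zero_of_lt this]
    simp

theorem wdg : WDGStmt := by
  intro L r
  obtain ⟨a, ha⟩ := newton (fun x => L (r - x))
  refine ⟨a, ?_⟩
  intro n k f R hR
  have h1 : ∀ F : KS n k, L (R \ F.1).card =
      ∑ j ∈ Finset.range (r + 1), a j * (((R ∩ F.1).card).choose j : ℝ) := by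
    intro F
    have e : (R \ F.1).card = r - (R ∩ F.1).card := by
      have := Finset.card_sdiff_add_card_inter R F.1
      omega
    rw [e]
    exact ha r (R ∩ F.1).card (by rw [← hR]; exact Finset.card_le_card Finset.inter_subset_left)
  have h2 : ∀ (F : KS n k) (j : ℕ), (((R ∩ F.1).card).choose j : ℝ) =
      ∑ J ∈ powersetCard j R, if J ⊆ F.1 then (1 : ℝ) else 0 := by
    intro F j
    rw [← Finset.sum_filter, Finset.sum_const, nsmul_eq_mul, mul_one, ← Finset.card_powersetCard]
    congr 2
    ext J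
    simp only [Finset.mem_powersetCard, Finset.mem_filter, Finset.subset_inter_iff]
    tauto
  unfold wf
  simp only [h1, h2, Finset.sum_mul]
  rw [Finset.sum_comm]
  refine Finset.sum_congr rfl fun j _ => ?_
  simp only [dg, Finset.mul_sum, Finset.sum_mul]
  rw [Finset.sum_comm]
  refine Finset.sum_congr rfl fun J _ => ?_
  refine Finset.sum_congr rfl fun F _ => ?_
  split_ifs <;> simp

end Pool.Agent.DPL.H25
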